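import Pool.Agent.Helper16.AZ.Stmts

/-! Module AVG: exponential sums over the multiples of the primes of a block. -/

open Finset Filter MeasureTheory Topology
open scoped ComplexConjugate InnerProductSpace

namespace Pool.Agent.Helper16.AZ

open Pool.Agent.Helper16.MD (MS PB Am RW Rich)

theorem st_AVG (hT : ST_TWP) : ST_AVG := by
  intro κ Cn i z hκ hκ1 hCn hz hz1
  have hCn0 : (0 : ℝ) < Cn := lt_trans (by positivity) hCn
  have h2i : (0 : ℝ) < (2 : ℝ) ^ i := by positivity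
  obtain ⟨H, hH⟩ : ∃ H : ℝ, H = (Cn : ℝ) * 2 ^ i := ⟨_, rfl⟩
  have hHpos : 0 < H := by rw [hH]; positivity
  obtain ⟨a, ha⟩ : ∃ a : ℝ, a = 4 / (κ * H) := ⟨_, rfl⟩
  have hapos : 0 < a := by rw [ha]; positivity
  have h1 : (2 : ℝ) ^ i * a < 1 := by
    rw [ha, hH]
    rw [mul_div_assoc', div_lt_one (by positivity)]
    rw [div_lt_iff₀ hκ] at hCn
    nlinarith
  have h2 : 2 * a / 2 ^ i < ‖z - 1‖ := by
    refine lt_of_eq_of_lt ?_ hz1
    rw [ha, hH]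
    have h4 : (4 : ℝ) ^ i = 2 ^ i * 2 ^ i := by
      rw [← mul_pow]; norm_num
    rw [h4]
    field_simp
    norm_num
  have hmem : ∀ p ∈ PB 1 i, p.Prime ∧ 2 ^ i < p ∧ p ≤ 2 ^ (i + 1) := by
    intro p hp
    unfold PB at hp
    rw [Finset.mem_filter, Finset.mem_Ioc] at hp
    exact ⟨hp.2.1, hp.1.1, hp.1.2⟩
  obtain ⟨Bad, hBad⟩ : ∃ Bad : Finset ℕ, Bad = (PB 1 i).filter (fun p => ‖z ^ p - 1‖ ≤ a) := ⟨_, rfl⟩
  have hBadc : Bad.card ≤ 1 := by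
    rw [Finset.card_le_one]
    intro p hp p' hp'
    by_contra hne
    rw [hBad, Finset.mem_filter] at hp hp'
    obtain ⟨hp1, hp2, hp3⟩ := hmem p hp.1
    obtain ⟨hq1, hq2, hq3⟩ := hmem p' hp'.1
    have := hT i p p' z a hp1 hq1 hne hp2 hq2 hp3 hq3 hz hapos.le h1 hp.2 hp'.2
    linarith
  have hbound : ∀ p, ‖∑ h ∈ range (Cn * 2 ^ i), z ^ (p * h)‖ ≤ H := by
    intro p
    refine (norm_sum_le _ _).trans ?_
    have : ∀ h ∈ range (Cn * 2 ^ i), ‖z ^ (p * h)‖ = 1 := by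
      intro h _
      rw [norm_pow, hz, one_pow]
    rw [Finset.sum_congr rfl this, Finset.sum_const, Finset.card_range, nsmul_eq_mul, mul_one, hH]
    push_cast
    exact le_refl _
  have hgood : ∀ p ∈ (PB 1 i).filter (fun p => ¬ ‖z ^ p - 1‖ ≤ a),
      ‖∑ h ∈ range (Cn * 2 ^ i), z ^ (p * h)‖ ^ 2 ≤ H ^ 2 * (κ / 4) := by
    intro p hp
    rw [Finset.mem_filter, not_le] at hp
    have hlt := hp.2
    have hne : z ^ p ≠ 1 := by
      intro h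
      rw [h, sub_self, norm_zero] at hlt
      linarith
    have hsum : ∑ h ∈ range (Cn * 2 ^ i), z ^ (p * h) = ((z ^ p) ^ (Cn * 2 ^ i) - 1) / (z ^ p - 1) := by
      rw [← geom_sum_eq hne]
      apply Finset.sum_congr rfl
      intro h _
      rw [pow_mul]
    have hnum : ‖(z ^ p) ^ (Cn * 2 ^ i) - 1‖ ≤ 2 := by
      refine (norm_sub_le _ _).trans ?_
      rw [norm_pow, norm_pow, hz, one_pow, one_pow, norm_one]
      norm_num
    have hle : ‖∑ h ∈ range (Cn * 2 ^ i), z ^ (p * h)‖ ≤ 2 / a := by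
      rw [hsum, norm_div]
      apply div_le_div₀ (by norm_num) hnum hapos hlt.le
    have h3 : ‖∑ h ∈ range (Cn * 2 ^ i), z ^ (p * h)‖ ^ 2 ≤ (2 / a) ^ 2 :=
      pow_le_pow_left₀ (norm_nonneg _) hle 2
    refine h3.trans ?_
    have h4 : (2 / a) ^ 2 = H ^ 2 * (κ ^ 2 / 4) := by
      rw [ha]
      field_simp
      norm_num
    rw [h4]
    apply mul_le_mul_of_nonneg_left _ (by positivity)
    nlinarith
  rw [← Finset.sum_filter_add_sum_filter_not (PB 1 i) (fun p => ‖z ^ p - 1‖ ≤ a)]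
  rw [← hBad, ← hH]
  have hs1 : ∑ p ∈ Bad, ‖∑ h ∈ range (Cn * 2 ^ i), z ^ (p * h)‖ ^ 2 ≤ H ^ 2 := by
    calc ∑ p ∈ Bad, ‖∑ h ∈ range (Cn * 2 ^ i), z ^ (p * h)‖ ^ 2 ≤ ∑ p ∈ Bad, H ^ 2 := by
          apply Finset.sum_le_sum
          intro p _
          exact pow_le_pow_left₀ (norm_nonneg _) (hbound p) 2
      _ = Bad.card * H ^ 2 := by rw [Finset.sum_const, nsmul_eq_mul]
      _ ≤ 1 * H ^ 2 := by
          apply mul_le_mul_of_nonneg_right _ (by positivity)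
          exact_mod_cast hBadc
      _ = H ^ 2 := one_mul _
  have hs2 : ∑ p ∈ (PB 1 i).filter (fun p => ¬ ‖z ^ p - 1‖ ≤ a),
      ‖∑ h ∈ range (Cn * 2 ^ i), z ^ (p * h)‖ ^ 2 ≤ (PB 1 i).card * (H ^ 2 * (κ / 4)) := by
    calc ∑ p ∈ (PB 1 i).filter (fun p => ¬ ‖z ^ p - 1‖ ≤ a),
      ‖∑ h ∈ range (Cn * 2 ^ i), z ^ (p * h)‖ ^ 2
        ≤ ∑ p ∈ (PB 1 i).filter (fun p => ¬ ‖z ^ p - 1‖ ≤ a), H ^ 2 * (κ / 4) :=
          Finset.sum_le_sum hgood
      _ = ((PB 1 i).filter (fun p => ¬ ‖z ^ p - 1‖ ≤ a)).card * (H ^ 2 * (κ / 4)) := by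
          rw [Finset.sum_const, nsmul_eq_mul]
      _ ≤ (PB 1 i).card * (H ^ 2 * (κ / 4)) := by
          apply mul_le_mul_of_nonneg_right _ (by positivity)
          exact_mod_cast Finset.card_filter_le _ _
  calc _ ≤ H ^ 2 + (PB 1 i).card * (H ^ 2 * (κ / 4)) := add_le_add hs1 hs2
    _ = H ^ 2 * (1 + κ / 4 * (PB 1 i).card) := by ring

end Pool.Agent.Helper16.AZ
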