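import Pool.Agent.Helper16.AZ.Stmts

/-! Module XTH: the theorem for skew products. -/

open Finset Filter MeasureTheory Topology
open scoped ComplexConjugate InnerProductSpace

namespace Pool.Agent.Helper16.AZ

open Pool.Agent.Helper16.MD (MS PB Am RW Rich)

theorem st_XTH (hC : ST_CSP.{0}) (hX : ST_XSW) : ST_XTH := by
  intro r d β Φ hβ hΦ F y
  obtain ⟨α, π, hα, hrot, hcl⟩ := hX r d β Φ hΦ
  have hF := hC (C(XX r d, ℂ)) r β α π hβ hrot F (by rw [hcl]; exact Set.mem_univ F)
  have hit : ∀ (n : ℕ), (α^[n] F) y = F ((SK β Φ)^[n] y) := by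
    have h : ∀ (n : ℕ) (y : XX r d), (α^[n] F) y = F ((SK β Φ)^[n] y) := by
      intro n
      induction n with
      | zero => intro y; rfl
      | succ n ih =>
        intro y
        rw [Function.iterate_succ', Function.comp_apply, hα, ih, Function.iterate_succ, Function.comp_apply]
    exact fun n => h n y
  have hst : Pool.Agent.Helper40.Mob.IsState (ContinuousMap.evalCLM ℂ y : C(XX r d, ℂ) →L[ℂ] ℂ) := by
    constructor
    · intro a
      refine ⟨‖a y‖ ^ 2, by positivity, ?_⟩
      rw [ContinuousMap.evalCLM_apply, ContinuousMap.mul_apply, ContinuousMap.star_apply]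
      have := Complex.conj_mul' (a y)
      rw [show star (a y) = conj (a y) from rfl, this]
      push_cast
      rfl
    · apply le_antisymm
      · apply ContinuousLinearMap.opNorm_le_bound _ zero_le_one
        intro f
        rw [one_mul, ContinuousMap.evalCLM_apply]
        exact f.norm_coe_le_norm y
      · have h1 := (ContinuousMap.evalCLM ℂ y : C(XX r d, ℂ) →L[ℂ] ℂ).le_opNorm 1
        rw [ContinuousMap.evalCLM_apply, ContinuousMap.one_apply, norm_one] at h1
        have h2 : ‖(1 : C(XX r d, ℂ))‖ ≤ 1 := by
          rw [ContinuousMap.norm_le _ zero_le_one]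
          intro x
          rw [ContinuousMap.one_apply, norm_one]
        have h3 := norm_nonneg (ContinuousMap.evalCLM ℂ y : C(XX r d, ℂ) →L[ℂ] ℂ)
        nlinarith
  have h := hF _ hst 1 norm_one
  refine h.congr ?_
  intro N
  congr 1
  unfold MS
  apply Finset.sum_congr rfl
  intro n _
  rw [one_pow, mul_one, ContinuousMap.evalCLM_apply, hit n]

end Pool.Agent.Helper16.AZ
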